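import Pool.Agent.V1167.GL.Mer5

/-!
# `F / ζ^r` and Gaussian sums

Let `F(s) = ∑ a_n n^{-s}` be a Dirichlet series which converges absolutely for `Re s > 1`, let `r` be a natural number and
`c = a * μ * ... * μ` (Dirichlet convolution, `r` times the Möbius function), so that

`F(s) / ζ(s)^r = ∑ c_n n^{-s}` for `Re s > 1`.

For `A ≥ 0` and `T > 0` consider the absolutely convergent Gaussian sum

`G_A(T) = (4πT)^{-1/2} ∑_n c_n (log n) n^A exp(-(log n)² / (4T))`.

(1) `F = ζ^r L₁` with an entire function `L₁` (the question, if `F` is a member of the Selberg class with a pole of order `r`)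
if and only if for every `A ≥ 0` (equivalently: for arbitrarily large `A`) `G_A(T) = O(exp(ε T))` for every `ε > 0`.

(2) For all `A, θ ≥ 0`: `F = ζ^r L₁` with `L₁` holomorphic in the region `Re (s + A)² > θ`, `Re s > -A` (and for `Re s > 1`),
if and only if `G_A(T) = O(exp((θ + ε) T))` for every `ε > 0`.

(3) Suppose that `(s - 1)^r F(s)` is entire (axiom 2 of the Selberg class). Then unconditionally, for every `A ≥ 0`,

`G_A(T) = ∑_ρ T P_ρ(T) exp((ρ + A)² T) + O(exp(ε T))` for every `ε > 0`,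

where `ρ` runs over the finitely many poles of `F / ζ^r` in the sector `|Im s| < Re s + A`, and the `P_ρ` are nonzero
polynomials. These poles are zeros of `ζ`. So a single exceptional zero of `ζ` makes the sums `G_A(T)` grow exponentially,
as soon as it is in the sector, and its contribution is isolated.

The functional equation and the Ramanujan bound are not used.
-/

set_option autoImplicit false

namespace Pool.Agent.Results.MP_995735_nt.GaussianQuotient

open Filter Topology Set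

/-- The coefficients `c` of `F / ζ^r`: the Dirichlet convolution `a * μ * ... * μ`. -/
noncomputable def quotCoeff (a : ArithmeticFunction ℂ) (r : ℕ) : ArithmeticFunction ℂ :=
  a * (ArithmeticFunction.moebius : ArithmeticFunction ℂ) ^ r

/-- `F = ζ^r L` for `Re s > 1`. -/
def IsQuotient (a : ArithmeticFunction ℂ) (r : ℕ) (L : ℂ → ℂ) : Prop :=
  ∀ s : ℂ, 1 < s.re → riemannZeta s ^ r * L s = LSeries (fun n => a n) s

/-- The region `Re (s + A)² > θ`, `Re s > -A`. -/
def Region (A θ : ℝ) : Set ℂ := {s | -A < s.re ∧ θ < ((s + A) ^ 2).re}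

/-- The Gaussian sum `G_A(T)`. -/
noncomputable def gauss (c : ArithmeticFunction ℂ) (A T : ℝ) : ℂ :=
  ((Real.sqrt (4 * Real.pi * T))⁻¹ : ℝ) * ∑' n : ℕ, c n *
    ((Real.log n * (n : ℝ) ^ A * Real.exp (-(Real.log n ^ 2 / (4 * T))) : ℝ) : ℂ)

/-- `G_A(T) = O(exp((θ + ε) T))` for every `ε > 0`. -/
def GrowsAtMost (c : ArithmeticFunction ℂ) (A θ : ℝ) : Prop :=
  ∀ ε : ℝ, 0 < ε → ∃ C : ℝ, ∀ᶠ T : ℝ in atTop, ‖gauss c A T‖ ≤ C * Real.exp ((θ + ε) * T)

/-- `G_A(T) = ∑_{ρ ∈ Z} T P_ρ(T) exp((ρ + A)² T) + O(exp(ε T))` for every `ε > 0`. -/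
def Expansion (c : ArithmeticFunction ℂ) (A : ℝ) (Z : Finset ℂ) (P : ℂ → Polynomial ℂ) : Prop :=
  ∀ ε : ℝ, 0 < ε → ∃ C : ℝ, ∀ᶠ T : ℝ in atTop,
    ‖gauss c A T - ∑ ρ ∈ Z, T * (P ρ).eval (T : ℂ) * Complex.exp ((ρ + A) ^ 2 * T)‖ ≤
      C * Real.exp (ε * T)

open Pool.Agent.V1167.GL

lemma hyp_eq {A θ : ℝ} (hθ : 0 ≤ θ) : Hyp A θ = Region A θ := by
  ext s
  change s + A ∈ Pool.Agent.V11291.GS.W θ ↔ -A < s.re ∧ θ < ((s + A) ^ 2).re
  rw [Pool.Agent.V11291.GS.W_iff hθ, Complex.add_re, Complex.ofReal_re]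
  constructor
  · rintro ⟨h1, h2⟩
    exact ⟨by linarith, h2⟩
  · rintro ⟨h1, h2⟩
    exact ⟨by linarith, h2⟩

lemma quot_spec {a : ArithmeticFunction ℂ} {s : ℂ} (hs : 1 < s.re)
    (ha : LSeriesSummable (fun n => a n) s) (r : ℕ) :
    LSeriesSummable (fun n => quotCoeff a r n) s ∧
      riemannZeta s ^ r * LSeries (fun n => quotCoeff a r n) s = LSeries (fun n => a n) s := by
  induction r with
  | zero =>
    have h1 : quotCoeff a 0 = a := by
      unfold quotCoeff
      rw [pow_zero, mul_one]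
    rw [h1, pow_zero, one_mul]
    exact ⟨ha, rfl⟩
  | succ r ih =>
    obtain ⟨h1, h2⟩ := ih
    have e1 : quotCoeff a (r + 1) =
        quotCoeff a r * (ArithmeticFunction.moebius : ArithmeticFunction ℂ) := by
      unfold quotCoeff
      rw [pow_succ, mul_assoc]
    have h3 : LSeriesSummable
        (fun n => (ArithmeticFunction.moebius : ArithmeticFunction ℂ) n) s :=
      ArithmeticFunction.LSeriesSummable_moebius_iff.2 hs
    have h4 : riemannZeta s *
        LSeries (fun n => (ArithmeticFunction.moebius : ArithmeticFunction ℂ) n) s = 1 := by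
      rw [← ArithmeticFunction.LSeries_zeta_eq_riemannZeta hs]
      exact ArithmeticFunction.LSeries_zeta_mul_Lseries_moebius hs
    rw [e1]
    refine ⟨ArithmeticFunction.LSeriesSummable_mul h1 h3, ?_⟩
    rw [ArithmeticFunction.LSeries_mul' h1 h3, pow_succ]
    rw [← h2]
    linear_combination (riemannZeta s ^ r * LSeries (fun n => quotCoeff a r n) s) * h4

lemma isq_iff {a : ArithmeticFunction ℂ} {s : ℂ} (hs : 1 < s.re)
    (ha : LSeriesSummable (fun n => a n) s) (r : ℕ) (y : ℂ) :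
    riemannZeta s ^ r * y = LSeries (fun n => a n) s ↔
      y = LSeries (fun n => quotCoeff a r n) s := by
  have h1 := (quot_spec hs ha r).2
  have h2 : riemannZeta s ^ r ≠ 0 := pow_ne_zero _ (riemannZeta_ne_zero_of_one_lt_re hs)
  rw [← h1]
  exact ⟨fun h => mul_left_cancel₀ h2 h, fun h => by rw [h]⟩

/-- `(s - 1) ζ(s)` -/
noncomputable def z1 : ℂ → ℂ := Function.update (fun s : ℂ => (s - 1) * riemannZeta s) 1 1

lemma z1_entire : Differentiable ℂ z1 := by
  unfold z1
  rw [← differentiableOn_univ,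
    ← Complex.differentiableOn_compl_singleton_and_continuousAt_iff (c := 1) Filter.univ_mem]
  refine ⟨?_, ?_⟩
  · intro w hw
    have hw1 : w ≠ 1 := by
      simpa using hw
    have h : DifferentiableAt ℂ (fun w : ℂ => (w - 1) * riemannZeta w) w :=
      (differentiableAt_id.sub_const 1).mul (differentiableAt_riemannZeta hw1)
    refine (h.congr_of_eventuallyEq ?_).differentiableWithinAt
    filter_upwards [isOpen_compl_singleton.mem_nhds (show w ∈ ({1} : Set ℂ)ᶜ by simpa using hw1)]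
      with z hz
    exact Function.update_of_ne (by simpa using hz) _ _
  · rw [continuousAt_update_same]
    exact riemannZeta_residue_one

lemma z1_of {s : ℂ} (hs : s ≠ 1) : z1 s = (s - 1) * riemannZeta s := Function.update_of_ne hs _ _

lemma z1_one : z1 1 = 1 := Function.update_self _ _ _

/-- **Theorem.** Let `F(s) = ∑ a_n n^{-s}` converge absolutely for `Re s > 1`, let `r ≥ 0`, and `c = a * μ * ... * μ`.

(0) `∑ c_n n^{-s}` converges absolutely for `Re s > 1`, and is `F(s) / ζ(s)^r`.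

(1) The following are equivalent: `F = ζ^r L` with an entire function `L`; for every `A ≥ 0` `G_A(T) = O(exp(ε T))` for every
`ε > 0`; the same for arbitrarily large `A`.

(2) For `A, θ ≥ 0`: `F = ζ^r L` with `L` holomorphic in the union of the region `Re (s + A)² > θ`, `Re s > -A` and the half
plane `Re s > 1`, if and only if `G_A(T) = O(exp((θ + ε) T))` for every `ε > 0`.

(3) If `(s - 1)^r F(s)` is entire, there is a function `M`, meromorphic in the plane, with `F = ζ^r M`, and for every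
`A ≥ 0`: the set `Z` of the poles of `M` in the sector `|Im s| < Re s + A` is finite, its elements are zeros of `ζ`, and there
are polynomials `P_ρ`, `ρ ∈ Z`, not zero, with
`G_A(T) = ∑_{ρ ∈ Z} T P_ρ(T) exp((ρ + A)² T) + O(exp(ε T))` for every `ε > 0`. -/
theorem result (a : ArithmeticFunction ℂ) (r : ℕ)
    (ha : ∀ s : ℂ, 1 < s.re → LSeriesSummable (fun n => a n) s) :
    (∀ s : ℂ, 1 < s.re → LSeriesSummable (fun n => quotCoeff a r n) s ∧
      riemannZeta s ^ r * LSeries (fun n => quotCoeff a r n) s = LSeries (fun n => a n) s) ∧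
    [(∃ L : ℂ → ℂ, Differentiable ℂ L ∧ IsQuotient a r L),
      (∀ A : ℝ, 0 ≤ A → GrowsAtMost (quotCoeff a r) A 0),
      (∀ A₀ : ℝ, ∃ A : ℝ, A₀ ≤ A ∧ 0 ≤ A ∧ GrowsAtMost (quotCoeff a r) A 0)].TFAE ∧
    (∀ A θ : ℝ, 0 ≤ A → 0 ≤ θ →
      ((∃ L : ℂ → ℂ, (∀ s : ℂ, s ∈ Region A θ ∨ 1 < s.re → DifferentiableAt ℂ L s) ∧
        IsQuotient a r L) ↔ GrowsAtMost (quotCoeff a r) A θ)) ∧
    ∀ E : ℂ → ℂ, Differentiable ℂ E →
      (∀ s : ℂ, 1 < s.re → E s = (s - 1) ^ r * LSeries (fun n => a n) s) →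
      ∃ M : ℂ → ℂ, MeromorphicOn M univ ∧ IsQuotient a r M ∧ ∀ A : ℝ, 0 ≤ A →
        ∃ Z : Finset ℂ, (∀ ρ : ℂ, ρ ∈ Z ↔ |ρ.im| < ρ.re + A ∧ meromorphicOrderAt M ρ < 0) ∧
          (∀ ρ ∈ Z, riemannZeta ρ = 0) ∧
          ∃ P : ℂ → Polynomial ℂ, (∀ ρ ∈ Z, P ρ ≠ 0) ∧ Expansion (quotCoeff a r) A Z P := by
  have hsum : ∀ σ : ℝ, 1 < σ → LSeriesSummable (fun n => quotCoeff a r n) σ := fun σ hσ =>
    (quot_spec (s := (σ : ℂ)) (by simpa using hσ) (ha _ (by simpa using hσ)) r).1
  refine ⟨fun s hs => quot_spec hs (ha s hs) r, ?_, fun A θ hA hθ => ?_, fun E hE hE2 => ?_⟩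
  · obtain ⟨h1, h2⟩ := dir_entire (a := fun n => quotCoeff a r n) (σa := 1) (by norm_num) hsum
    have e1 : (∃ L : ℂ → ℂ, Differentiable ℂ L ∧ IsQuotient a r L) ↔
        ∃ F : ℂ → ℂ, Differentiable ℂ F ∧ ∀ s : ℂ, 1 < s.re →
          F s = LSeries (fun n => quotCoeff a r n) s := by
      refine exists_congr fun F => and_congr Iff.rfl ?_
      exact forall_congr' fun s => forall_congr' fun hs => isq_iff hs (ha s hs) r _
    rw [e1]
    tfae_have 1 ↔ 2 := h1
    tfae_have 1 ↔ 3 := h2
    tfae_finish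
  · have h3 := dir_crit (a := fun n => quotCoeff a r n) (σa := 1) (by norm_num) hsum hA hθ
    rw [hyp_eq hθ] at h3
    refine Iff.trans ?_ h3
    refine exists_congr fun F => and_congr Iff.rfl ?_
    exact forall_congr' fun s => forall_congr' fun hs => isq_iff hs (ha s hs) r _
  · set M : ℂ → ℂ := fun s => E s / z1 s ^ r with hM
    have hzan : ∀ s : ℂ, AnalyticAt ℂ z1 s := fun s => z1_entire.analyticAt s
    have hMm : MeromorphicOn M univ := fun s _ =>
      (hE.analyticAt s).meromorphicAt.fun_div ((hzan s).meromorphicAt.fun_pow r)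
    have hMan : ∀ s : ℂ, z1 s ≠ 0 → AnalyticAt ℂ M s := fun s hs =>
      (hE.analyticAt s).fun_div ((hzan s).fun_pow r) (pow_ne_zero _ hs)
    have hz1 : ∀ s : ℂ, 1 < s.re → z1 s ≠ 0 := fun s hs => by
      have h1 : s ≠ 1 := fun h => by
        rw [h, Complex.one_re] at hs
        exact lt_irrefl _ hs
      rw [z1_of h1]
      exact mul_ne_zero (sub_ne_zero.2 h1) (riemannZeta_ne_zero_of_one_lt_re hs)
    have hMq : IsQuotient a r M := fun s hs => by
      have h1 : s ≠ 1 := fun h => by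
        rw [h, Complex.one_re] at hs
        exact lt_irrefl _ hs
      have h2 := riemannZeta_ne_zero_of_one_lt_re hs
      have h3 : s - 1 ≠ 0 := sub_ne_zero.2 h1
      rw [hM]
      simp only
      rw [hE2 s hs, z1_of h1, mul_pow]
      field_simp
    have hMl : ∀ s : ℂ, 1 < s.re → M s = LSeries (fun n => quotCoeff a r n) s := fun s hs =>
      (isq_iff hs (ha s hs) r _).1 (hMq s hs)
    refine ⟨M, hMm, hMq, fun A hA => ?_⟩
    have hs2 : LSeriesSummable (fun n => quotCoeff a r n) ((2 : ℝ) : ℂ) := hsum 2 (by norm_num)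
    have hfin : {s : ℂ | s ∈ Hyp A 0 ∧ meromorphicOrderAt M s < 0}.Finite := by
      have D := gd_of (a := fun n => quotCoeff a r n) (σ := 2) (by norm_num) hs2
      have h1 := (mer_all D (f := fun s => M s + -(quotCoeff a r 1))
        (fun s _ => (hMm s (mem_univ s)).fun_add (by fun_prop)) (σ' := 2) (fun s hs => by
          have e1 : LSeriesSummable (fun n => quotCoeff a r n) s :=
            (quot_spec (by linarith) (ha s (by linarith)) r).1
          rw [hMl s (by linarith), ls_eq e1]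
          ring) hA).1
      refine h1.subset fun s hs => ⟨hs.1, ?_⟩
      have e1 : MeromorphicAt (fun s => M s + -(quotCoeff a r 1)) s :=
        (hMm s (mem_univ s)).fun_add (by fun_prop)
      refine ord_const e1 (quotCoeff a r 1) ?_
      have e2 : (fun s => M s + -(quotCoeff a r 1) + quotCoeff a r 1) = M := by
        funext z
        ring
      rw [e2]
      exact hs.2
    have hpole : ∀ s : ℂ, meromorphicOrderAt M s < 0 → riemannZeta s = 0 ∧ s.re ≤ 1 := by
      intro s hs
      have h1 : z1 s = 0 := by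
        by_contra h2
        exact absurd hs (not_lt.2 (hMan s h2).meromorphicOrderAt_nonneg)
      have h2 : s ≠ 1 := fun h => by
        rw [h, z1_one] at h1
        exact one_ne_zero h1
      rw [z1_of h2] at h1
      have h3 := (mul_eq_zero.1 h1).resolve_left (sub_ne_zero.2 h2)
      refine ⟨h3, ?_⟩
      by_contra h4
      push Not at h4
      exact riemannZeta_ne_zero_of_one_lt_re h4 h3
    have hZ : ∀ β ∈ hfin.toFinset, β ∈ Hyp A 0 ∧ β.re ≤ 2 := fun β hβ => by
      have h1 := hfin.mem_toFinset.1 hβ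
      exact ⟨h1.1, by linarith [(hpole β h1.2).2]⟩
    have hex : ∃ F : ℂ → ℂ, MeromorphicOn F (Hyp A 0) ∧
        (∀ s ∈ Hyp A 0, s ∉ hfin.toFinset → AnalyticAt ℂ F s) ∧
        ∀ s ∈ Hyp A 0, 2 < s.re → F s = LSeries (fun n => quotCoeff a r n) s := by
      refine ⟨toMeromorphicNFOn M univ, fun s _ => ?_, fun s hs hsZ => ?_, fun s _ hs => ?_⟩
      · exact (meromorphicNFOn_toMeromorphicNFOn M univ (mem_univ s)).meromorphicAt
      · have e1 := meromorphicNFOn_toMeromorphicNFOn M univ (mem_univ s)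
        rw [← e1.meromorphicOrderAt_nonneg_iff_analyticAt,
          meromorphicOrderAt_toMeromorphicNFOn hMm (mem_univ s)]
        by_contra h0
        push Not at h0
        exact hsZ (hfin.mem_toFinset.2 ⟨hs, h0⟩)
      · have e1 := meromorphicNFOn_toMeromorphicNFOn M univ (mem_univ s)
        have e2 := hMan s (hz1 s (by linarith))
        have e3 : toMeromorphicNFOn M univ =ᶠ[𝓝[≠] s] M :=
          hMm.toMeromorphicNFOn_eq_self_on_nhdsNE (mem_univ s)
        rw [← hMl s (by linarith)]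
        exact ((e1.eventuallyEq_nhdsNE_iff_eventuallyEq_nhds e2.meromorphicNFAt).1 e3).eq_of_nhds
    obtain ⟨P, hP⟩ := (dir_mer_Z (a := fun n => quotCoeff a r n) (σ := 2) (by norm_num) hs2 hA le_rfl
      (Z := hfin.toFinset) hZ).1 hex
    refine ⟨hfin.toFinset, fun ρ => ?_, fun ρ hρ => (hpole ρ (hfin.mem_toFinset.1 hρ).2).1,
      P, fun ρ hρ h0 => ?_, ?_⟩
    · rw [hfin.mem_toFinset, Hyp_zero]
      rfl
    · have h1 := pex_zero (by norm_num) hs2 hA le_rfl hZ (F := M)
        (fun s _ => hMm s (mem_univ s)) (fun s _ hs => hMl s (by linarith)) hP hρ h0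
      exact absurd (hfin.mem_toFinset.1 hρ).2 (not_lt.2 h1)
    · intro ε hε
      obtain ⟨C, hC⟩ := hP ε hε
      refine ⟨C, ?_⟩
      filter_upwards [hC] with T hT
      rw [zero_add] at hT
      exact hT

end Pool.Agent.Results.MP_995735_nt.GaussianQuotient
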