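import Pool.Agent.V11288.QU.Zt

/-!
# The quotient `F/ζ^r` for `F` in the Selberg class, its zeros and poles, and the coefficients of `log F`

Let `F(s) = ∑ a(n) n^{-s}` be in the Selberg class, `log F(s) = ∑ b(n) n^{-s}` with `b(n) = 0` unless `n` is a
prime power and `b(n) ≪ n^θ`, `θ < 1/2`, and let `r` be the order of its pole at `s = 1`.  The question is
whether `F/ζ^r` is entire.  By the functional equations this means that it has no poles with `Re s ≥ 1/2`.

What is used of `F` is only this (`IsMember`): `b` as above, `F = exp ∑ b(n) n^{-s}` far to the right, and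
`E(s) = (s - 1)^r F(s)` is holomorphic and of polynomial growth on a half plane `Re s > σ - η`.  For the members
of the Selberg class (with `r` the order of the pole) this holds for all `σ`, by the theorem of Phragmén and
Lindelöf and the functional equation.  Let `M = F/ζ^r`, and for real `t` and `Y > 1`

`S_t(Y) = ∑_{n ≤ Y} Re ((b(n) - r Λ(n)/log n) n^{-σ-it})`,
`I(t, k, A) = ∫_1^∞ (S_t(Y) + k (log log Y + γ) - log A)² dY/Y`.

It is shown for all real `σ ≥ 1/2`: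

1. Let `k(t)`, `A(t) > 0` be arbitrary real functions.  `M` has neither zeros nor poles with `Re s > σ`, and
   for every real `t` its order at `σ + it` is `k(t)` and the absolute value of the leading coefficient is
   `A(t)`, IF AND ONLY IF `I(t, k(t), A(t))` is finite for every `t`.

2. If `I(t, k, A)` is finite, it is equal to
   `(1/π) ∫_{-∞}^∞ (½ log |M(σ + i(t+u))| + ½ log |M(σ + i(t-u))| - k log |u| - log A)² du/u²`.

3. `M` is holomorphic on the closed half plane `Re s ≥ σ` and has no zeros in the open half plane `Re s > σ`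
   IF AND ONLY IF for every real `t` the integral `I(t, k, A)` is finite for some `A > 0` and some `k ≥ 0`.
   For `σ = 1/2` the left side is: `F = ζ^r L₁` with `L₁` entire, and the Riemann hypothesis holds for `L₁`.

4. If the `b(n)` are real, then `M` has neither zeros nor poles with `Re s > σ` IF AND ONLY IF `I(0, k, A)` is
   finite for some `A > 0` and some `k`.

Proof.  `I(t, k, A)` is the norm of `(log M(σ + s) - k log s - log A)/s` in the Hardy space of `Re s > 0` (for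
`t ≠ 0` one uses `M(σ + it + s) conj M(σ + it + conj s)`).  If `M` has neither zeros nor poles there, the
common zeros of numerator and denominator are removed by Blaschke factors on discs of bounded radius, and the
local mean square of `log M` is bounded by Jensen's inequality (library `Pool.Agent.V11288.QU`).
-/

set_option autoImplicit false

namespace Pool.Agent.Results.MP_995735_nt.QuotientOnTheLine

open Filter Topology MeasureTheory Set

/-- `F(s) = ∑ a(n) n^{-s}`, `log F(s) = ∑ b(n) n^{-s}`, and `E(s) = (s - 1)^r F(s)` is holomorphic and of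
polynomial growth on a half plane `Re s > σ - η`. -/
structure IsMember (a b : ℕ → ℂ) (r : ℕ) (σ : ℝ) (E : ℂ → ℂ) : Prop where
  summable : ∀ s : ℂ, 1 < s.re → LSeriesSummable a s
  supp : ∀ n : ℕ, ¬ IsPrimePow n → b n = 0
  coef : ∃ C θ : ℝ, θ < 1 / 2 ∧ ∀ n : ℕ, n ≠ 0 → ‖b n‖ ≤ C * (n : ℝ) ^ θ
  log : ∀ s : ℂ, 3 / 2 < s.re → LSeries a s = Complex.exp (LSeries b s)
  ext : ∀ s : ℂ, 1 < s.re → E s = (s - 1) ^ r * LSeries a s
  cont : ∃ (η C : ℝ) (κ : ℕ), 0 < η ∧ ∀ s : ℂ, σ - η < s.re →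
    DifferentiableAt ℂ E s ∧ ‖E s‖ ≤ C * (1 + ‖s‖) ^ κ

/-- `(s - 1) ζ(s)`, with the value `1` at `s = 1`. -/
noncomputable def zetaOne (s : ℂ) : ℂ := if s = 1 then 1 else (s - 1) * riemannZeta s

/-- `F(s)/ζ(s)^r = E(s)/((s - 1) ζ(s))^r`. -/
noncomputable def quot (E : ℂ → ℂ) (r : ℕ) (s : ℂ) : ℂ := E s / zetaOne s ^ r

/-- `S_t(Y)`, the sum of `Re ((b(n) - r Λ(n)/log n) n^{-σ-it})` over `n ≤ Y`. -/
noncomputable def partialSum (b : ℕ → ℂ) (r : ℕ) (σ t Y : ℝ) : ℝ :=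
  ∑ n ∈ Finset.Icc 1 ⌊Y⌋₊,
    ((b n - r * ((ArithmeticFunction.vonMangoldt n / Real.log n : ℝ) : ℂ)) *
      (n : ℂ) ^ (-((σ : ℂ) + t * Complex.I))).re

/-- `I(t, k, A) = ∫_1^∞ (S_t(Y) + k (γ + log log Y) - log A)² dY/Y ∈ [0, ∞]`. -/
noncomputable def meanSquare (b : ℕ → ℂ) (r : ℕ) (σ t k A : ℝ) : ENNReal :=
  ∫⁻ Y in Ioi (1 : ℝ), ENNReal.ofReal
    ((partialSum b r σ t Y + k * (Real.eulerMascheroniConstant + Real.log (Real.log Y)) -
      Real.log A) ^ 2 / Y)

/-- The meromorphic function `M` has neither zeros nor poles with `Re s > σ`. -/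
def NoZerosNoPoles (M : ℂ → ℂ) (σ : ℝ) : Prop := ∀ s : ℂ, σ < s.re → meromorphicOrderAt M s = 0

/-- The order of `M` at `c` is the integer `k` and `A` is the absolute value of the leading coefficient:
`|M(s)| / |s - c|^k → A` for `s → c`. -/
def LeadingAt (M : ℂ → ℂ) (c : ℂ) (k A : ℝ) : Prop :=
  ∃ m : ℤ, k = m ∧ Tendsto (fun s : ℂ => ‖M s‖ / ‖s - c‖ ^ m) (𝓝[≠] c) (𝓝 A)

open Pool.Agent.V11288.QU
open Pool.Agent.V11288.HS (zeta1 zeta1_growth zeta_entire)

theorem zetaOne_eq : zetaOne = zeta1 := by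
  funext s
  unfold zetaOne zeta1
  by_cases h : s = 1
  · rw [if_pos h, h, Function.update_self]
  · rw [if_neg h, Function.update_of_ne h]

/-- the coefficients of `log (F/ζ^r)` -/
noncomputable def co (b : ℕ → ℂ) (r : ℕ) (n : ℕ) : ℂ :=
  b n - r * ((ArithmeticFunction.vonMangoldt n / Real.log n : ℝ) : ℂ)

variable {a b : ℕ → ℂ} {r : ℕ} {σ : ℝ} {E : ℂ → ℂ}

theorem b_bound (h : IsMember a b r σ E) : ∃ C : ℝ, ∀ n : Zt.J, ‖b n.1‖ ≤ C * (n.1 : ℝ) ^ (1 / 2 : ℝ) := by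
  obtain ⟨C, θ, hθ, h1⟩ := h.coef
  refine ⟨|C|, fun n => ?_⟩
  have h0 := Zt.pos n
  have h2 : (1 : ℝ) ≤ n.1 := by
    have := n.2
    exact_mod_cast (by omega : 1 ≤ n.1)
  refine (h1 n.1 (by have := n.2; omega)).trans ?_
  calc C * (n.1 : ℝ) ^ θ ≤ |C| * (n.1 : ℝ) ^ θ := by
        gcongr
        exact le_abs_self C
    _ ≤ |C| * (n.1 : ℝ) ^ (1 / 2 : ℝ) := by
        have := Real.rpow_le_rpow_of_exponent_le h2 hθ.le
        gcongr

theorem co_bound (h : IsMember a b r σ E) : ∃ C : ℝ, ∀ n : Zt.J,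
    ‖co b r n.1‖ ≤ C * (n.1 : ℝ) ^ (1 / 2 : ℝ) := by
  obtain ⟨C, h1⟩ := b_bound h
  refine ⟨C + r, fun n => ?_⟩
  have h2 : (1 : ℝ) ≤ n.1 := by
    have := n.2
    exact_mod_cast (by omega : 1 ≤ n.1)
  have h3 := Zt.kap_le n
  rw [Real.rpow_zero, mul_one] at h3
  have h4 : (1 : ℝ) ≤ (n.1 : ℝ) ^ (1 / 2 : ℝ) := Real.one_le_rpow h2 (by norm_num)
  unfold co
  refine (norm_sub_le _ _).trans ?_
  rw [norm_mul, Complex.norm_natCast, add_mul]
  have h5 : (r : ℝ) * ‖Zt.kap n.1‖ ≤ r * (n.1 : ℝ) ^ (1 / 2 : ℝ) := by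
    gcongr
    linarith
  exact add_le_add (h1 n) h5

theorem lseries_eq (hb1 : b 1 = 0) (s : ℂ) :
    LSeries b s = ∑' n : Zt.J, b n.1 * Complex.exp (-(s * Zt.lam n)) := by
  simp only [Zt.cp]
  refine Eq.trans ?_ (tsum_subtype {n : ℕ | 2 ≤ n} (fun m : ℕ => b m * (m : ℂ) ^ (-s))).symm
  unfold LSeries
  refine tsum_congr fun n => ?_
  by_cases h3 : 2 ≤ n
  · rw [indicator_of_mem (show n ∈ {n : ℕ | 2 ≤ n} from h3), LSeries.term_of_ne_zero (by omega),
      Complex.cpow_neg, div_eq_mul_inv]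
  · rw [indicator_of_notMem (show n ∉ {n : ℕ | 2 ≤ n} from h3)]
    have h4 : n = 0 ∨ n = 1 := by omega
    rcases h4 with rfl | rfl
    · simp
    · rw [LSeries.term_of_ne_zero (by omega), hb1, zero_div]

theorem isQ (hσ : 1 / 2 ≤ σ) (h : IsMember a b r σ E) :
    IsQ Zt.lam (fun n : Zt.J => co b r n.1) σ E (fun s => zetaOne s ^ r) := by
  rw [zetaOne_eq]
  obtain ⟨Cb, hCb⟩ := b_bound h
  have hb1 : b 1 = 0 := h.supp 1 not_isPrimePow_one
  obtain ⟨c, hc, hlow⟩ := Zt.zeta1_low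
  refine ⟨?_, 2, c⁻¹ ^ r, 0, fun s hs => ⟨?_, ?_⟩⟩
  · obtain ⟨η, C, κ, hη, h1⟩ := h.cont
    refine ⟨min η (1 / 4), |C| + 8 ^ r, κ + 2 * r, by positivity, fun s hs => ?_⟩
    have h2 := min_le_left η (1 / 4)
    have h3 := min_le_right η (1 / 4)
    obtain ⟨h4, h5⟩ := h1 s (by linarith)
    have h6 : (1 : ℝ) ≤ 1 + ‖s‖ := by linarith [norm_nonneg s]
    refine ⟨h4, (zeta_entire s).pow r, ?_, ?_⟩
    · refine h5.trans ?_
      have h7 : (1 + ‖s‖) ^ κ ≤ (1 + ‖s‖) ^ (κ + 2 * r) := pow_le_pow_right₀ h6 (Nat.le_add_right _ _)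
      have h8 : C ≤ |C| + 8 ^ r := by
        have := le_abs_self C
        have h9 : (0 : ℝ) ≤ 8 ^ r := by positivity
        linarith
      calc C * (1 + ‖s‖) ^ κ ≤ (|C| + 8 ^ r) * (1 + ‖s‖) ^ κ := by gcongr
        _ ≤ _ := by gcongr
    · rw [norm_pow]
      calc ‖zeta1 s‖ ^ r ≤ (8 * (1 + ‖s‖) ^ 2) ^ r := by
            gcongr
            exact zeta1_growth (by linarith)
        _ = 8 ^ r * (1 + ‖s‖) ^ (2 * r) := by rw [mul_pow, ← pow_mul]
        _ ≤ _ := by
          have h7 : (1 + ‖s‖) ^ (2 * r) ≤ (1 + ‖s‖) ^ (κ + 2 * r) :=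
            pow_le_pow_right₀ h6 (Nat.le_add_left _ _)
          have h8 : (8 : ℝ) ^ r ≤ |C| + 8 ^ r := by
            have := abs_nonneg C
            linarith
          gcongr
  · have hs1 : 1 < s.re := by linarith
    have hne : s ≠ 1 := by
      rintro rfl
      norm_num at hs
    have hs0 : s - 1 ≠ 0 := sub_ne_zero.2 hne
    have s1 := Zt.summ (c := fun n : Zt.J => b n.1) hCb (s := s) (by linarith)
    have s2 := Zt.summ (c := fun n : Zt.J => Zt.kap n.1) Zt.kap_le (s := s) (by linarith)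
    have e1 : ∑' n : Zt.J, co b r n.1 * Complex.exp (-(s * Zt.lam n)) =
        (∑' n : Zt.J, b n.1 * Complex.exp (-(s * Zt.lam n))) -
          r * ∑' n : Zt.J, Zt.kap n.1 * Complex.exp (-(s * Zt.lam n)) := by
      rw [← tsum_mul_left, ← s1.tsum_sub (s2.mul_left _)]
      refine tsum_congr fun n => ?_
      unfold co
      rw [sub_mul, mul_assoc]
      rfl
    rw [e1, Complex.exp_sub, Complex.exp_nat_mul, Zt.log_zeta hs1, ← lseries_eq hb1,
      ← h.log s (by linarith), h.ext s hs1]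
    have e2 : zeta1 s = (s - 1) * riemannZeta s := by
      unfold zeta1
      rw [Function.update_of_ne hne]
    have hz : riemannZeta s ≠ 0 := riemannZeta_ne_zero_of_one_lt_re hs1
    simp only [e2, mul_pow]
    field_simp
  · have h1 := hlow s hs
    rw [pow_zero, mul_one, norm_pow, ← mul_pow]
    refine one_le_pow₀ ?_
    rw [inv_mul_eq_div, le_div_iff₀ hc, one_mul]
    exact h1

theorem ms_eq (hb1 : b 1 = 0) (σ t k A : ℝ) :
    meanSquare b r σ t k A = mS Zt.lam (fun n : Zt.J => co b r n.1) σ t k A := by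
  unfold meanSquare mS
  refine setLIntegral_congr_fun measurableSet_Ioi fun Y hY => ?_
  have e : partialSum b r σ t Y = lA Zt.lam (fun n : Zt.J => co b r n.1) σ t Y := by
    rw [Zt.lA_eq (co b r) σ t hY (by simp [co, hb1])]
    rfl
  simp only [e]

/-- **The quotient `F/ζ^r` and the coefficients of `log F`.** -/
theorem result (a b : ℕ → ℂ) (r : ℕ) (σ : ℝ) (hσ : 1 / 2 ≤ σ) (E : ℂ → ℂ) (hF : IsMember a b r σ E) :
    (∀ k A : ℝ → ℝ, (∀ t, 0 < A t) →
      ((NoZerosNoPoles (quot E r) σ ∧ ∀ t : ℝ, LeadingAt (quot E r) (σ + t * Complex.I) (k t) (A t)) ↔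
        ∀ t : ℝ, meanSquare b r σ t (k t) (A t) < ⊤)) ∧
    (∀ t k A : ℝ, 0 < A → meanSquare b r σ t k A < ⊤ →
      meanSquare b r σ t k A = ENNReal.ofReal Real.pi⁻¹ * ∫⁻ u : ℝ, ENNReal.ofReal
        (((Real.log ‖quot E r (σ + (t + u) * Complex.I)‖ +
          Real.log ‖quot E r (σ + (t - u) * Complex.I)‖) / 2 - k * Real.log |u| - Real.log A) ^ 2 /
            u ^ 2)) ∧
    ((NoZerosNoPoles (quot E r) σ ∧ ∀ s : ℂ, s.re = σ → 0 ≤ meromorphicOrderAt (quot E r) s) ↔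
      ∀ t : ℝ, ∃ k A : ℝ, 0 < A ∧ 0 ≤ k ∧ meanSquare b r σ t k A < ⊤) ∧
    ((∀ n, (b n).im = 0) →
      (NoZerosNoPoles (quot E r) σ ↔ ∃ k A : ℝ, 0 < A ∧ meanSquare b r σ 0 k A < ⊤)) := by
  have hQ := isQ hσ hF
  have hb1 : b 1 = 0 := hF.supp 1 not_isPrimePow_one
  obtain ⟨C, hC⟩ := co_bound hF
  have hS := Zt.ser hC
  simp only [ms_eq hb1]
  refine ⟨fun k A hA => Li.all hS hQ k A hA, fun t k A hA hf => Li.formula hS hQ t k hA hf, Li.holo hS hQ,
    fun hr => Li.real_iff hS (fun n => ?_) hQ⟩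
  unfold co
  rw [Complex.sub_im, hr, ← Complex.ofReal_natCast, ← Complex.ofReal_mul, Complex.ofReal_im, sub_zero]

end Pool.Agent.Results.MP_995735_nt.QuotientOnTheLine
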